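import Pool.Agent.H97.LA.Targets

/-!
Circuits with linear algebra gates (MP_c62aed_lc): one gate.
-/

set_option autoImplicit false

namespace Pool.Agent.H33.LA

open Finset Pool.Agent.H60.SYM Pool.Agent.H42.XS Pool.Agent.H97.LA

theorem pair_add_left {n : ℕ} (z z' f : Fin n → ZMod 2) :
    pair (z + z') f = pair z f + pair z' f := by
  unfold pair
  rw [← sum_add_distrib]
  exact sum_congr rfl fun v _ => by rw [Pi.add_apply, add_mul]

theorem pair_add_right {n : ℕ} (z f f' : Fin n → ZMod 2) :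
    pair z (f + f') = pair z f + pair z f' := by
  unfold pair
  rw [← sum_add_distrib]
  exact sum_congr rfl fun v _ => by rw [Pi.add_apply, mul_add]

/-- the vectors orthogonal to `W` -/
def perpS {n : ℕ} (W : Submodule (ZMod 2) (Fin n → ZMod 2)) :
    Submodule (ZMod 2) (Fin n → ZMod 2) where
  carrier := {v | perp W v}
  add_mem' := fun {a b} ha hb f hf => by rw [pair_add_left, ha f hf, hb f hf, add_zero]
  zero_mem' := fun f _ => by simp [pair]
  smul_mem' := fun c x hx f hf => by
    have h : pair (c • x) f = c * pair x f := by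
      unfold pair
      rw [mul_sum]
      exact sum_congr rfl fun v _ => by rw [Pi.smul_apply, smul_eq_mul, mul_assoc]
    rw [h, hx f hf, mul_zero]

theorem mem_perpS {n : ℕ} (W : Submodule (ZMod 2) (Fin n → ZMod 2)) (v : Fin n → ZMod 2) :
    v ∈ perpS W ↔ perp W v := Iff.rfl

/-- the value of a gate which is not an input gate -/
theorem val_none {I V : Type} {s t : ℕ} (C : LCirc I V s t) (φ : I → Bool) (g : Fin s)
    (h : C.inp g = none) :
    C.val φ g = (C.op g).app {i : Fin t // C.own i = g} fun l i j => C.val φ (C.ch l i.1 j.1) := by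
  rw [LCirc.val]
  split
  · next i hi => rw [h] at hi; cases hi
  · rfl

/-- the action of `W` on the rows of a gate fixed by `W` -/
noncomputable def bJ {n t : ℕ} (W : Submodule (ZMod 2) (Fin n → ZMod 2))
    (b : (Fin n → ZMod 2) → Equiv.Perm (Fin t)) (p : Fin t → Prop)
    (hp : ∀ w ∈ W, ∀ i, p (b w i) ↔ p i) (w : Fin n → ZMod 2) : Equiv.Perm {i : Fin t // p i} := by
  classical
  exact if hw : w ∈ W then (b w).subtypePerm (hp w hw) else 1

theorem bJ_apply {n t : ℕ} (W : Submodule (ZMod 2) (Fin n → ZMod 2))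
    (b : (Fin n → ZMod 2) → Equiv.Perm (Fin t)) (p : Fin t → Prop)
    (hp : ∀ w ∈ W, ∀ i, p (b w i) ↔ p i) (w : Fin n → ZMod 2) (hw : w ∈ W)
    (i : {i : Fin t // p i}) : ((bJ W b p hp w i : {i : Fin t // p i}) : Fin t) = b w i.1 := by
  unfold bJ
  rw [dif_pos hw]
  rfl

theorem zadd {n : ℕ} (w : Fin n → ZMod 2) : w + w = 0 := by
  funext v
  exact CharTwo.add_self_eq_zero (w v)

theorem pf_STEP (hAPP : T_APP) (hVALA : T_VALA) (hLINM : T_LINM) (hWLK : T_WLK) (hFMS : T_FMS) :
    T_STEP := by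
  intro M n d s t s₀ ρ R V e U W C a b g hact hW hinp hs₀ hρ hR hG2 hG3 hdep β β' hβ
  obtain ⟨hF1, hF2, hF3⟩ : (∀ f β, fml e (β + sft e f) = fun D => fml e β (exch f D)) ∧
      (∀ f c, pair c (sft e f) = pair (comb e c) f) ∧
      ∀ c c', comb e (c + c') = comb e c + comb e c' :=
    ⟨fun f => (hFMS M n d e f).1, fun f => (hFMS M n d e f).2.1, (hFMS M n d e 0).2.2⟩
  have hWU : ∀ w ∈ W, w ∈ U := fun w hw => ((hW w).1 hw).1
  have hWg : ∀ w ∈ W, a w g = g := fun w hw => ((hW w).1 hw).2
  -- the involution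
  have haa : ∀ w ∈ U, ∀ h, a w (a w h) = h := by
    intro w hw h
    have h0 : a 0 = 1 := by
      have h1 := hact.ga 0 (zero_mem U) 0 (zero_mem U)
      rw [add_zero] at h1
      exact (mul_eq_left.1 h1.symm)
    have h1 := hact.ga w hw w hw
    rw [zadd, h0] at h1
    have h2 := congrArg (fun σ : Equiv.Perm (Fin s) => σ h) h1
    simpa using h2.symm
  have hp : ∀ w ∈ W, ∀ i, C.own (b w i) = g ↔ C.own i = g := by
    intro w hw i
    rw [hact.own w (hWU w hw)]
    constructor
    · intro h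
      exact (a w).injective (h.trans (hWg w hw).symm)
    · intro h
      rw [h]
      exact hWg w hw
  have hYY : ∀ u, YY W (bJ W b (fun i => C.own i = g) hp) u ↔
      ∃ i, C.own i = g ∧ ∀ w ∈ W, b w i = i → pair u w = 0 := by
    intro u
    constructor
    · rintro ⟨i, hi⟩
      refine ⟨i.1, i.2, fun w hw hwi => hi w hw (Subtype.ext ?_)⟩
      rw [bJ_apply W b _ hp w hw]
      exact hwi
    · rintro ⟨i, hig, hi⟩
      refine ⟨⟨i, hig⟩, fun w hw hwi => hi w hw ?_⟩
      have h := congrArg Subtype.val hwi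
      rw [bJ_apply W b _ hp w hw] at h
      exact h
  -- the signs
  obtain ⟨f, hf1, hf2, hf3⟩ := hWLK n M (comb e) (perpS W)
    {u | ∃ i, C.own i = g ∧ ∀ w ∈ W, b w i = i → pair u w = 0} s₀ ρ R (β + β') hF3 hρ hs₀ hR
    (by
      rintro u ⟨i, hig, hi⟩ v hv
      refine ⟨i, hig, fun w hw hwi => ?_⟩
      rw [pair_add_left, hi w hw hwi, hv w hw, add_zero])
    (by
      intro c hc hwt
      by_contra hlt
      exact hG2 c (not_lt.1 hlt) hwt hc)
    (by
      intro c hwt hc
      rw [pair_add_right, hβ c hwt hc]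
      exact CharTwo.add_self_eq_zero _)
    (by
      intro u₀ hu₀ T hT hTY
      exact hG3 u₀ T hT hu₀ hTY)
  -- the matrices
  obtain ⟨D, D', hD, hD', hL⟩ := hLINM n M (C.op g).K (C.op g).two {i : Fin t // C.own i = g} W
    (bJ W b (fun i => C.own i = g) hp) (sft e) (comb e) s₀
    (fun l γ => Matrix.of fun i j => (C.op g).code l (C.val (fml e γ) (C.ch l i.1 j.1))) f β β'
    (by
      intro w hw w' hw'
      refine Equiv.ext fun i => Subtype.ext ?_
      rw [bJ_apply W b _ hp _ (add_mem hw hw'), Equiv.Perm.mul_apply, bJ_apply W b _ hp _ hw,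
        bJ_apply W b _ hp _ hw', hact.gb w (hWU w hw) w' (hWU w' hw'), Equiv.Perm.mul_apply])
    (fun c w => hF2 w c)
    (by
      intro w hw l γ i j
      simp only [Matrix.of_apply]
      rw [bJ_apply W b _ hp _ hw, bJ_apply W b _ hp _ hw,
        hact.ch w (hWU w hw) l i.1 j.1 (i.2.trans j.2.symm), hF1,
        hVALA n (d + 1) s t V U C a b hact w (hWU w hw), haa w (hWU w hw)])
    (by
      intro l i j
      obtain ⟨H, hH1, hH2⟩ := hdep l i.1 j.1 i.2 j.2
      refine ⟨H, hH1, fun γ γ' hγ => ?_⟩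
      simp only [Matrix.of_apply]
      rw [hH2 γ γ' hγ])
    hf1 (fun u v hv => hf2 u v hv)
    (by
      intro u c hu huc hwt
      exact hf3 u c ((hYY u).1 hu) ((hYY _).1 huc) hwt)
  rw [val_none C _ g hinp, val_none C _ g hinp]
  refine ((hAPP V (C.op g) {i : Fin t // C.own i = g} {i : Fin t // C.own i = g}).2 _ _ D D' hD hD'
    fun l => ?_).symm
  exact hL l

end Pool.Agent.H33.LA
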